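import Pool.Agent.Work.MP_3d425c_gt.Tp.Defs

/-! Finite ordered triangulations of a closed space and foliations in normal form. -/

namespace Pool.Agent.Work.MP_3d425c_gt.Tq
open Set Relation Pool.Agent.Work.MP_3d425c_gt.Tp

variable {V : Type}

/-- `K` is the finite set of tetrahedra, with ordered vertices, of a triangulation without
boundary; links are connected; at each vertex the upper link and the lower link are simply
connected and the equator between them is connected. -/
structure Mfd (K : Set (Fin 4 → V)) : Prop where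
  fin : K.Finite
  ord : ∀ x ∈ K, ∀ y ∈ K, ∀ i j k l, i < j → x i = y k → x j = y l → k < l
  two : ∀ x ∈ K, ∀ k, ∃! p : (Fin 4 → V) × Fin 4,
    p.1 ∈ K ∧ p ≠ (x, k) ∧ Fin.removeNth p.2 p.1 = Fin.removeNth k x
  link : ∀ s : Set V, ∀ x ∈ K, ∀ y ∈ K, s ⊆ range x → s ⊆ range y →
    ReflTransGen (Adj K fun f => s ⊆ range f) x y
  equ : ∀ x ∈ K, ∀ y ∈ K, ∀ v, (v = x 1 ∨ v = x 2) → (v = y 1 ∨ v = y 2) →
    ReflTransGen (Adj K fun f => f 1 = v) x y
  upper : ∀ v, IsSimplyConnected (⋃ x ∈ K, ⋃ i ∈ {i | x i = v}, spx (x '' Ioi i))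
  lower : ∀ v, IsSimplyConnected (⋃ x ∈ K, ⋃ i ∈ {i | x i = v}, spx (x '' Iio i))

/-- `b` gives the barycentric coordinates of a triangulation of `M`, and the level sets of
`ht x` are the plaques, in the tetrahedron `x`, of a co-oriented foliation in normal form:
`ht x` increases along the edges. -/
structure Nf {M : Type} [TopologicalSpace M] (K : Set (Fin 4 → V)) (b : M → V → ℝ)
    (ht : (Fin 4 → V) → M → ℝ) : Prop where
  emb : Topology.IsEmbedding b
  onto : range b = ⋃ x ∈ K, spx (range x)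
  cont : ∀ x ∈ K, ContinuousOn (ht x) (b ⁻¹' spx (range x))
  mono : ∀ x ∈ K, ∀ i j, i < j → ∀ y z, b y ∈ spx {x i, x j} → b z ∈ spx {x i, x j} →
    b y (x j) < b z (x j) → ht x y < ht x z
  same : ∀ x ∈ K, ∀ x' ∈ K, ∀ y z, b y ∈ spx (range x ∩ range x') →
    b z ∈ spx (range x ∩ range x') → ht x y ≤ ht x z → ht x' y ≤ ht x' z

end Pool.Agent.Work.MP_3d425c_gt.Tq
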