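import Pool.Agent.Work.MP_3d425c_gt.Tq.Sheet
import Pool.Agent.Work.MP_3d425c_gt.Tq.Defs

/-! The lifted complex. -/

namespace Pool.Agent.Work.MP_3d425c_gt.Tq
open Set Function Topology Filter Relation Pool.Agent.Work.MP_3d425c_gt.Tp

/-- vertices of the covering -/
@[ext] structure Lf (G V : Type) : Type where
  g : G
  x : V

instance {G V : Type} [Group G] : MulAction G (Lf G V) where
  smul a q := ⟨a * q.g, q.x⟩
  one_smul _ := Lf.ext (one_mul _) rfl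
  mul_smul _ _ _ := Lf.ext (mul_assoc _ _ _) rfl

variable {G V : Type}

theorem Lf.smul_def [Group G] (a : G) (q : Lf G V) : a • q = ⟨a * q.g, q.x⟩ := rfl

/-- graph of a choice of sheets -/
def gr (σ : V → G) (v : V) : Lf G V := ⟨σ v, v⟩

theorem gr_inj (σ : V → G) : Injective (gr σ) := fun _ _ h => congrArg Lf.x h

open Classical in
/-- extension by zero along the graph -/
noncomputable def ex (σ : V → G) (β : V → ℝ) (q : Lf G V) : ℝ := if q.g = σ q.x then β q.x else 0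

theorem ex_gr (σ : V → G) (β : V → ℝ) (v : V) : ex σ β (gr σ v) = β v := if_pos rfl

theorem ex_ne {σ : V → G} {β : V → ℝ} {q : Lf G V} (h : ex σ β q ≠ 0) :
    q = gr σ q.x ∧ β q.x ≠ 0 := by
  unfold ex at h
  split_ifs at h with e
  · exact ⟨Lf.ext e rfl, h⟩
  · exact absurd rfl h

theorem ex_supp (σ : V → G) (β : V → ℝ) : support (ex σ β) = gr σ '' support β := by
  ext q
  constructor
  · intro h
    exact ⟨q.x, (ex_ne h).2, (ex_ne h).1.symm⟩
  · rintro ⟨v, h, rfl⟩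
    rwa [mem_support, ex_gr]

theorem ex_sum (σ : V → G) (β : V → ℝ) : ∑ᶠ q, ex σ β q = ∑ᶠ v, β v := by
  rw [← finsum_mem_univ, finsum_mem_inter_support_eq' _ univ (range (gr σ)), finsum_mem_range
    (gr_inj σ)]
  · simp only [ex_gr]
  · intro q h
    simp only [mem_univ, true_iff]
    exact ⟨q.x, (ex_ne h).1.symm⟩

theorem ex_nn {σ : V → G} {β : V → ℝ} (h : ∀ v, 0 ≤ β v) (q) : 0 ≤ ex σ β q := by
  unfold ex
  split_ifs
  · exact h _
  · exact le_rfl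

theorem ex_mem {σ : V → G} {β : V → ℝ} {s : Set (Lf G V)} :
    ex σ β ∈ spx s ↔ β ∈ spx (gr σ ⁻¹' s) := by
  constructor
  · intro h
    refine ⟨fun v => ex_gr σ β v ▸ h.1 _, fun v hv => h.2.1 ?_, ex_sum σ β ▸ h.2.2⟩
    rwa [mem_support, ex_gr]
  · intro h
    refine ⟨ex_nn h.1, ?_, (ex_sum σ β).trans h.2.2⟩
    rw [ex_supp]
    rintro _ ⟨v, hv, rfl⟩
    exact h.2.1 hv

theorem ex_back {σ : V → G} {β : Lf G V → ℝ} (h : support β ⊆ range (gr σ)) :
    ex σ (β ∘ gr σ) = β := by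
  funext q
  unfold ex
  split_ifs with e
  · exact congrArg β (Lf.ext e.symm rfl)
  · by_contra d
    obtain ⟨v, rfl⟩ := h (Ne.symm d)
    exact e rfl

theorem ex_congr {σ τ : V → G} {β : V → ℝ} (h : ∀ v, β v ≠ 0 → σ v = τ v) : ex σ β = ex τ β := by
  funext q
  unfold ex
  by_cases e : β q.x = 0
  · simp [e]
  · rw [h _ e]

theorem ex_image (σ : V → G) (s : Set V) : ex σ '' spx s = spx (gr σ '' s) := by
  ext β
  constructor
  · rintro ⟨γ, h, rfl⟩
    rwa [ex_mem, preimage_image_eq _ (gr_inj σ)]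
  · intro h
    have e := ex_back (h.2.1.trans (image_subset_range _ _))
    refine ⟨_, ?_, e⟩
    rwa [← e, ex_mem, preimage_image_eq _ (gr_inj σ)] at h

theorem ex_emb (σ : V → G) : IsEmbedding (ex σ) := by
  refine LeftInverse.isEmbedding (f := fun β => β ∘ gr σ) (fun β => funext (ex_gr σ β))
    (continuous_pi fun v => continuous_apply _) (continuous_pi fun q => ?_)
  unfold ex
  split_ifs
  · exact continuous_apply _
  · exact continuous_const

theorem ex_sc (σ : V → G) {R : Set (V → ℝ)} (h : IsSimplyConnected R) :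
    IsSimplyConnected (ex σ '' R) :=
  have := h.simplyConnectedSpace
  ((ex_emb σ).homeomorphImage R).symm.toHomotopyEquiv.simplyConnectedSpace

variable [Group G]

/-- projection of a simplex -/
def dn {n : ℕ} (x : Fin n → Lf G V) : Fin n → V := fun i => (x i).x

/-- the lifted tetrahedra -/
def Up (c : V → V → G) (K : Set (Fin 4 → V)) : Set (Fin 4 → Lf G V) :=
  {x | dn x ∈ K ∧ ∀ i j, (x j).g = (x i).g * c (x i).x (x j).x}

/-- the sheets adjacent to the vertex `q` -/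
def nb (c : V → V → G) (q : Lf G V) (w : V) : G := q.g * c q.x w

/-- cocycle condition -/
def Coc (c : V → V → G) (K : Set (Fin 4 → V)) : Prop :=
  ∀ x ∈ K, ∀ u ∈ range x, ∀ v ∈ range x, ∀ w ∈ range x, c u v * c v w = c u w

variable {c : V → V → G} {K : Set (Fin 4 → V)}

theorem Coc.self (hc : Coc c K) {x} (hx : x ∈ K) {u} (hu : u ∈ range x) : c u u = 1 :=
  mul_eq_left.1 (hc x hx u hu u hu u hu)

theorem Coc.up (hc : Coc c K) {x} (hx : x ∈ K) {q : Lf G V} (hq : q.x ∈ range x) :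
    gr (nb c q) ∘ x ∈ Up c K :=
  ⟨hx, fun i j => by
    show q.g * c q.x (x j) = q.g * c q.x (x i) * c (x i) (x j)
    rw [mul_assoc, hc x hx _ hq _ ⟨i, rfl⟩ _ ⟨j, rfl⟩]⟩

theorem Coc.gr_self (hc : Coc c K) {x} (hx : x ∈ K) {q : Lf G V} (hq : q.x ∈ range x) :
    gr (nb c q) q.x = q :=
  Lf.ext (by show q.g * c q.x q.x = q.g; rw [hc.self hx hq, mul_one]) rfl

theorem up_eq {x} (hx : x ∈ Up c K) {q} (hq : q ∈ range x) : gr (nb c q) ∘ dn x = x := by
  obtain ⟨i, rfl⟩ := hq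
  funext j
  exact Lf.ext (hx.2 i j).symm rfl

omit [Group G] in
theorem dn_mem {n : ℕ} {x : Fin n → Lf G V} {q} (hq : q ∈ range x) : q.x ∈ range (dn x) := by
  obtain ⟨i, rfl⟩ := hq
  exact ⟨i, rfl⟩

/-- Chains of tetrahedra around a vertex lift. -/
theorem Coc.chain (hc : Coc c K) (q : Lf G V) {P : (Fin 3 → V) → Prop}
    {Q : (Fin 3 → Lf G V) → Prop} (hP : ∀ f, P f → q.x ∈ range f ∧ Q (gr (nb c q) ∘ f))
    {x y} (hx : x ∈ Up c K) (hy : y ∈ Up c K) (qx : q ∈ range x) (qy : q ∈ range y)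
    (h : ReflTransGen (Adj K P) (dn x) (dn y)) : ReflTransGen (Adj (Up c K) Q) x y := by
  have : ReflTransGen (Adj (Up c K) Q) (gr (nb c q) ∘ dn x) (gr (nb c q) ∘ dn y) := by
    refine ReflTransGen.lift (r := Adj K P) (fun z => gr (nb c q) ∘ z) ?_ _ _ h
    rintro z w ⟨hw, k, l, e, a⟩
    obtain ⟨⟨i, hi⟩, a2⟩ := hP _ a
    refine ⟨hc.up hw ⟨l.succAbove i, (congrFun e i).symm.trans hi⟩, k, l, ?_, a2⟩
    exact congrArg (fun f => gr (nb c q) ∘ f) e
  rwa [up_eq hx qx, up_eq hy qy] at this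

theorem nb_eq {x} (hx : x ∈ Up c K) {q r} (hq : q ∈ range x) (hr : r ∈ range x) :
    gr (nb c q) r.x = r := by
  obtain ⟨j, rfl⟩ := hr
  exact congrFun (up_eq hx hq) j

theorem Mfd.all (hK : Mfd K) (v : V) : ∃ x ∈ K, v ∈ range x := by
  obtain ⟨β, hβ⟩ := (hK.upper v).isPathConnected.nonempty
  simp only [mem_iUnion] at hβ
  obtain ⟨x, hx, i, hi, -⟩ := hβ
  exact ⟨x, hx, i, hi⟩

theorem Coc.star (hc : Coc c K) (hK : Mfd K) (q : Lf G V) {x y} (hx : x ∈ Up c K)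
    (hy : y ∈ Up c K) (qx : q ∈ range x) (qy : q ∈ range y) :
    ReflTransGen (Adj (Up c K) fun _ => True) x y :=
  hc.chain q (P := fun f => {q.x} ⊆ range f) (fun _ a => ⟨a rfl, trivial⟩) hx hy qx qy
    (hK.link {q.x} _ hx.1 _ hy.1 (singleton_subset_iff.2 (dn_mem qx))
      (singleton_subset_iff.2 (dn_mem qy)))

theorem Coc.lk (hc : Coc c K) (q : Lf G V) (I : Fin 4 → Set (Fin 4)) :
    (⋃ x ∈ Up c K, ⋃ i ∈ {i | x i = q}, spx (x '' I i)) =
      ex (nb c q) '' ⋃ x ∈ K, ⋃ i ∈ {i | x i = q.x}, spx (x '' I i) := by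
  ext β
  simp only [image_iUnion, mem_iUnion, ex_image]
  constructor
  · rintro ⟨x, hx, i, hi, a⟩
    refine ⟨dn x, hx.1, i, congrArg Lf.x hi, ?_⟩
    rwa [← image_comp, up_eq hx ⟨i, hi⟩]
  · rintro ⟨x, hx, i, hi, a⟩
    refine ⟨_, hc.up hx (q := q) ⟨i, hi⟩, i, ?_, by rwa [image_comp]⟩
    show gr (nb c q) (x i) = q
    rw [show x i = q.x from hi]
    exact hc.gr_self hx ⟨i, hi⟩

theorem Coc.cpx (hc : Coc c K) (hK : Mfd K)
    (conn : ∀ x ∈ Up c K, ∀ y ∈ Up c K, ReflTransGen (Adj (Up c K) fun _ => True) x y) :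
    Cpx G (Up c K) where
  inv g x hx := ⟨hx.1, fun i j => by
    show g * (x j).g = g * (x i).g * c (x i).x (x j).x
    rw [hx.2 i j, mul_assoc]⟩
  fin := ⟨(fun x => gr (nb c ⟨1, x 0⟩) ∘ x) '' K, hK.fin.image _, fun x hx =>
    ⟨(x 0).g⁻¹, dn x, hx.1, funext fun j => Lf.ext (by
      show 1 * c (x 0).x (x j).x = (x 0).g⁻¹ * (x j).g
      rw [hx.2 0 j, inv_mul_cancel_left, one_mul]) rfl⟩⟩
  all q := by
    obtain ⟨x, hx, i, hi⟩ := hK.all q.x
    refine ⟨_, hc.up hx (q := q) ⟨i, hi⟩, i, ?_⟩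
    show gr (nb c q) (x i) = q
    rw [hi]
    exact hc.gr_self hx ⟨i, hi⟩
  ord x hx y hy i j k l h a b :=
    hK.ord _ hx.1 _ hy.1 i j k l h (congrArg Lf.x a) (congrArg Lf.x b)
  two x hx k := by
    obtain ⟨⟨y, l⟩, ⟨hy, ne, e⟩, un⟩ := hK.two _ hx.1 k
    have qx : x (k.succAbove 0) ∈ range x := ⟨_, rfl⟩
    refine ⟨(gr (nb c (x (k.succAbove 0))) ∘ y, l),
      ⟨hc.up hy ⟨l.succAbove 0, congrFun e 0⟩, fun d => ne ?_, ?_⟩, ?_⟩
    · exact Prod.ext (congrArg dn (Prod.ext_iff.1 d).1) (Prod.ext_iff.1 d).2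
    · exact (congrArg (fun f => gr (nb c (x (k.succAbove 0))) ∘ f) e).trans
        (congrArg (Fin.removeNth k) (up_eq hx qx))
    · rintro ⟨y', l'⟩ ⟨h1, h2, h3⟩
      have qy : x (k.succAbove 0) ∈ range y' := ⟨l'.succAbove 0, congrFun h3 0⟩
      have := un (dn y', l') ⟨h1.1, fun d => h2 (Prod.ext ?_ (Prod.ext_iff.1 d).2),
        congrArg dn h3⟩
      · refine Prod.ext ?_ (Prod.ext_iff.1 this).2
        exact (up_eq h1 qy).symm.trans
          (congrArg (fun r => gr (nb c (x (k.succAbove 0))) ∘ r.1) this)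
      · exact (up_eq h1 qy).symm.trans ((congrArg
          (fun r => gr (nb c (x (k.succAbove 0))) ∘ r.1) d).trans (up_eq hx qx))
  conn := conn
  link x hx y hy u v _ ux vx uy vy := by
    refine hc.chain u (P := fun f => {u.x, v.x} ⊆ range f) (fun f a => ⟨a (by simp), ?_, ?_⟩)
      hx hy ux uy (hK.link {u.x, v.x} _ hx.1 _ hy.1 (pair_subset (dn_mem ux) (dn_mem vx))
        (pair_subset (dn_mem uy) (dn_mem vy)))
    · obtain ⟨i, hi⟩ := a (mem_insert _ _)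
      exact ⟨i, (congrArg (gr (nb c u)) hi).trans (nb_eq hx ux ux)⟩
    · obtain ⟨i, hi⟩ := a (mem_insert_of_mem _ rfl)
      exact ⟨i, (congrArg (gr (nb c u)) hi).trans (nb_eq hx ux vx)⟩
  equ x hx y hy v a b := by
    have vx : v ∈ range x := a.elim (fun e => ⟨_, e.symm⟩) fun e => ⟨_, e.symm⟩
    have vy : v ∈ range y := b.elim (fun e => ⟨_, e.symm⟩) fun e => ⟨_, e.symm⟩
    exact hc.chain v (P := fun f => f 1 = v.x)
      (fun f e => ⟨⟨1, e⟩, (congrArg (gr (nb c v)) e).trans (nb_eq hx vx vx)⟩) hx hy vx vy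
      (hK.equ _ hx.1 _ hy.1 v.x (a.imp (congrArg Lf.x) (congrArg Lf.x))
        (b.imp (congrArg Lf.x) (congrArg Lf.x)))
  upper q := hc.lk q Ioi ▸ ex_sc _ (hK.upper q.x)
  lower q := hc.lk q Iio ▸ ex_sc _ (hK.lower q.x)

theorem Coc.cyc (hc : Coc c K) (h : ∀ u v, Ed K u v → ReflTransGen (Ed K) v u) :
    Cyc G (Up c K) := by
  rintro u v ⟨x, hx, i, j, ij, rfl, rfl⟩
  have : ∀ w, ReflTransGen (Ed K) (x j).x w → ∃ g : G, ReflTransGen (Ed (Up c K)) (x j) ⟨g, w⟩ := by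
    intro w hw
    induction hw with
    | refl => exact ⟨_, .refl⟩
    | tail _ e ih =>
      obtain ⟨g, hg⟩ := ih
      obtain ⟨y, hy, k, l, kl, rfl, rfl⟩ := e
      exact ⟨_, hg.tail ⟨_, hc.up hy (q := ⟨g, y k⟩) ⟨k, rfl⟩, k, l, kl,
        hc.gr_self hy (q := ⟨g, y k⟩) ⟨k, rfl⟩, rfl⟩⟩
  obtain ⟨g, hg⟩ := this _ (h _ _ ⟨dn x, hx.1, i, j, ij, rfl, rfl⟩)
  refine ⟨g * (x i).g⁻¹, ?_⟩
  rwa [Lf.smul_def, inv_mul_cancel_right]

end Pool.Agent.Work.MP_3d425c_gt.Tq
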