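import Pool.Agent.Work.MP_3d425c_gt.Tq.Up
import Pool.Agent.Work.MP_3d425c_gt.Tp.Main

/-! The theorem for a finite triangulation of the base. -/

namespace Pool.Agent.Work.MP_3d425c_gt.Tq
open Set Relation Pool.Agent.Work.MP_3d425c_gt.Tp

theorem main {M V : Type} [TopologicalSpace M] (m : M)
    (tf : ∀ a : FundamentalGroup M m, a ≠ 1 → ¬ IsOfFinOrder a)
    (cent : ∀ a : FundamentalGroup M m, a ≠ 1 →
      IsCyclic (Subgroup.centralizer ({a} : Set (FundamentalGroup M m))))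
    (big : ∀ E : Subgroup (FundamentalGroup M m), E.FG → IsCyclic E ∨ E.FiniteIndex ∨
      ∃ f : E →* Multiplicative (ℤ × ℤ), Function.Surjective f)
    (K : Set (Fin 4 → V)) (hK : Mfd K) (hc : ∀ u v, Ed K u v → ReflTransGen (Ed K) v u)
    (b : M → V → ℝ) (ht : (Fin 4 → V) → M → ℝ) (hn : Nf K b ht) :
    Nontrivial (FundamentalGroup M m) ∧
      ∃ r : FundamentalGroup M m → FundamentalGroup M m → Prop,
        IsStrictTotalOrder _ r ∧ ∀ a b c, r a b ↔ r (c * a) (c * b) := by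
  have := hK.path hn.emb hn.onto m
  obtain ⟨Y, _, _, p, hp, _⟩ := exists_cover hn.emb (un_range hn.onto) m
  obtain ⟨S⟩ := exists_sh hp hn.emb (un_range hn.onto)
  exact Tp.main p hp tf cent big _ (S.cpx hp hK hn.emb hn.onto)
    ((S.coc hp.surjective hn.onto).cyc hc) _ (S.bary hp hn.emb hn.onto) _ (S.normal hp hn) m

end Pool.Agent.Work.MP_3d425c_gt.Tq
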