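import Pool.Agent.Work.MP_3d425c_gt.Tp.Cech
import Pool.Agent.Work.MP_3d425c_gt.Tp.Uc

/-! Sheets of a regular covering over the open stars of a triangulation. -/

namespace Pool.Agent.Work.MP_3d425c_gt.Tq
open Set Function Topology Filter Pool.Agent.Work.MP_3d425c_gt.Tp

variable {V : Type}

theorem star_cvx {R : Set (V → ℝ)} (h : Un R) {a : V → ℝ} (ha : a ∈ spx (support a)) :
    StarConvex ℝ a {β | β ∈ R ∧ support a ⊆ support β} := by
  intro β hβ s t hs ht hst
  refine ⟨(h _ hβ.1).2 (spx_convex _ (spx_mono hβ.2 ha) (h _ hβ.1).1 hs ht hst), fun w hw => ?_⟩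
  have h1 : 0 < a w := lt_of_le_of_ne (ha.1 w) (Ne.symm hw)
  have h2 : 0 < β w := lt_of_le_of_ne ((h _ hβ.1).1.1 w) (Ne.symm (hβ.2 hw))
  have : 0 < s * a w + t * β w := by
    rcases hs.eq_or_lt with e | e
    · have : t = 1 := by linarith
      rw [← e, this]; linarith
    · have := mul_pos e h1
      have := mul_nonneg ht h2.le
      linarith
  exact ne_of_gt this

theorem dl_nn (u w : V) : 0 ≤ dl u w := (dl_mem (σ := {u}) rfl).1 w

theorem mid_supp (u v : V) :
    support ((1 / 2 : ℝ) • dl u + (1 / 2 : ℝ) • dl v) = {u, v} := by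
  ext w
  simp only [mem_support, Pi.add_apply, Pi.smul_apply, smul_eq_mul, mem_insert_iff,
    mem_singleton_iff]
  constructor
  · intro h
    by_contra e
    push Not at e
    exact h (by rw [dl_ne e.1, dl_ne e.2]; norm_num)
  · rintro (rfl | rfl)
    · have := dl_nn v w
      rw [dl_self]; linarith
    · have := dl_nn u w
      rw [dl_self]; linarith

variable {M : Type*} [TopologicalSpace M] {b : M → V → ℝ}

/-- the open star of the edge `u v` -/
def St (b : M → V → ℝ) (u v : V) : Set M := {z | b z u ≠ 0 ∧ b z v ≠ 0}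

theorem st_open (he : IsEmbedding b) (u v : V) : IsOpen (St b u v) :=
  (isOpen_ne_fun ((continuous_apply u).comp he.continuous) continuous_const).inter
    (isOpen_ne_fun ((continuous_apply v).comp he.continuous) continuous_const)

theorem st_contr (he : IsEmbedding b) (h : Un (range b)) (u v : V) (hn : (St b u v).Nonempty) :
    ContractibleSpace (St b u v) := by
  have ha : ((1 / 2 : ℝ) • dl u + (1 / 2 : ℝ) • dl v) ∈ spx {u, v} :=
    spx_convex _ (dl_mem (by simp)) (dl_mem (by simp)) (by norm_num) (by norm_num) (by norm_num)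
  have c := star_cvx h (a := (1 / 2 : ℝ) • dl u + (1 / 2 : ℝ) • dl v) (by rwa [mid_supp])
  have e : {β | β ∈ range b ∧ support ((1 / 2 : ℝ) • dl u + (1 / 2 : ℝ) • dl v) ⊆ support β} =
      b '' St b u v := by
    rw [mid_supp]
    ext β
    constructor
    · rintro ⟨⟨z, rfl⟩, a⟩
      exact ⟨z, ⟨a (by simp), a (by simp)⟩, rfl⟩
    · rintro ⟨z, a, rfl⟩
      refine ⟨⟨z, rfl⟩, ?_⟩
      rintro w (rfl | rfl)
      · exact a.1
      · exact a.2
  rw [e] at c
  have := c.contractibleSpace (hn.image b)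
  exact (he.homeomorphImage (St b u v)).contractibleSpace

theorem lpc (he : IsEmbedding b) (h : Un (range b)) : LocallyPathConnectedSpace M :=
  have := h.lpc
  he.toHomeomorph.isOpenEmbedding.locallyPathConnectedSpace

omit [TopologicalSpace M] in
theorem cover (h : Un (range b)) (z : M) : ∃ v, b z v ≠ 0 := by
  by_contra e
  push Not at e
  have := (h _ ⟨z, rfl⟩).1.2.2
  simp [e] at this

/-- Sections over the open stars, sheet numbers and the transition cocycle. -/
structure Sh (G : Type) {Y : Type*} [Group G] [TopologicalSpace Y] [MulAction G Y] (p : Y → M)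
    (b : M → V → ℝ) where
  s : V → M → Y
  l : V → Y → G
  c : V → V → G
  cs : ∀ v z, b z v ≠ 0 → ContinuousAt (s v) z
  ps : ∀ v z, b z v ≠ 0 → p (s v z) = z
  ls : ∀ v y, b (p y) v ≠ 0 → l v y • s v (p y) = y
  lc : ∀ v y, b (p y) v ≠ 0 → ∀ᶠ y' in 𝓝 y, l v y' = l v y
  lg : ∀ v (g : G) y, b (p y) v ≠ 0 → l v (g • y) = g * l v y
  l1 : ∀ v z, b z v ≠ 0 → l v (s v z) = 1
  tr : ∀ u v y, b (p y) u ≠ 0 → b (p y) v ≠ 0 → l v y = l u y * c u v

theorem exists_sh {G : Type} {Y : Type*} [Group G] [TopologicalSpace Y] [MulAction G Y]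
    [Nonempty Y] {p : Y → M} (hp : IsQuotientCoveringMap p G) (he : IsEmbedding b)
    (h : Un (range b)) : Nonempty (Sh G p b) := by
  classical
  have := lpc he h
  have := hp.isCancelSMul
  have := hp.toContinuousConstSMul
  have hs : ∀ v, ∃ s : M → Y, ∀ z, b z v ≠ 0 → ContinuousAt s z ∧ p (s z) = z := fun v => by
    by_cases hn : (St b v v).Nonempty
    · have := st_contr he h v v hn
      have := (st_open he v v).locallyPathConnectedSpace
      obtain ⟨z0, h0⟩ := hn
      obtain ⟨y0, hy⟩ := hp.surjective z0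
      obtain ⟨F, ⟨-, hF⟩, -⟩ := hp.isCoveringMap.existsUnique_continuousMap_lifts
        (⟨Subtype.val, continuous_subtype_val⟩ : C(St b v v, M)) ⟨z0, h0⟩ y0 hy
      refine ⟨fun z => if hz : z ∈ St b v v then F ⟨z, hz⟩ else y0, fun z hz => ⟨?_, ?_⟩⟩
      · refine ContinuousOn.continuousAt (s := St b v v) ?_ ((st_open he v v).mem_nhds ⟨hz, hz⟩)
        rw [continuousOn_iff_continuous_domRestrict]
        refine F.continuous.congr fun x => ?_
        simp
      · have hz' : z ∈ St b v v := ⟨hz, hz⟩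
        simp only [dif_pos hz']
        exact congrFun hF ⟨z, hz'⟩
    · exact ⟨fun _ => Classical.arbitrary Y, fun z hz => absurd ⟨z, hz, hz⟩ hn⟩
  choose s hs using hs
  have hl : ∀ v y, ∃ g : G, b (p y) v ≠ 0 → g • s v (p y) = y := fun v y => by
    by_cases e : b (p y) v ≠ 0
    · obtain ⟨g, hg⟩ := hp.apply_eq_iff_mem_orbit.1 (hs v _ e).2.symm
      exact ⟨g, fun _ => hg⟩
    · exact ⟨1, fun d => absurd d e⟩
  choose l hl using hl
  have uniq : ∀ v y (g : G), b (p y) v ≠ 0 → g • s v (p y) = y → l v y = g := fun v y g e d =>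
    IsCancelSMul.right_cancel _ _ (s v (p y)) ((hl v y e).trans d.symm)
  have lc : ∀ v y, b (p y) v ≠ 0 → ∀ᶠ y' in 𝓝 y, l v y' = l v y := fun v y e => by
    obtain ⟨U, hU, a⟩ := hp.disjoint y
    have c1 : ContinuousAt (fun y' => l v y • s v (p y')) y :=
      ((hs v _ e).1.comp hp.continuous.continuousAt).const_smul _
    have c2 : (fun y' => l v y • s v (p y')) ⁻¹' U ∈ 𝓝 y :=
      c1.preimage_mem_nhds (by rwa [hl v y e])
    have c3 : p ⁻¹' St b v v ∈ 𝓝 y := ((st_open he v v).preimage hp.continuous).mem_nhds ⟨e, e⟩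
    filter_upwards [hU, c2, c3] with y' d1 d2 d3
    have := a (l v y' * (l v y)⁻¹) ⟨y', ⟨_, d2, by
      simp only [smul_smul, inv_mul_cancel_right]; exact hl v y' d3.1⟩, d1⟩
    exact mul_inv_eq_one.1 this
  have lg : ∀ v (g : G) y, b (p y) v ≠ 0 → l v (g • y) = g * l v y := fun v g y e =>
    uniq v _ _ (by rwa [hp.map_smul]) (by rw [hp.map_smul, mul_smul, hl v y e])
  have hc : ∀ u v, ∃ c : G, ∀ z ∈ St b u v, l v (s u z) = c := fun u v => by
    by_cases hn : (St b u v).Nonempty
    · have := st_contr he h u v hn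
      obtain ⟨z0, h0⟩ := hn
      refine ⟨l v (s u z0), fun z hz => ?_⟩
      have lo : IsLocallyConstant fun z : St b u v => l v (s u z.1) :=
        (IsLocallyConstant.iff_eventually_eq _).2 fun z =>
          (((hs u z.1 z.2.1).1.comp continuous_subtype_val.continuousAt).tendsto).eventually
            (lc v (s u z.1) (by rw [(hs u z.1 z.2.1).2]; exact z.2.2))
      exact lo.apply_eq_of_preconnectedSpace ⟨z, hz⟩ ⟨z0, h0⟩
    · exact ⟨1, fun z hz => absurd ⟨z, hz⟩ hn⟩
  choose c hc using hc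
  refine ⟨⟨s, l, c, fun v z e => (hs v z e).1, fun v z e => (hs v z e).2, hl, lc, lg,
    fun v z e => uniq v _ _ (by rwa [(hs v z e).2]) (by rw [(hs v z e).2, one_smul]),
    fun u v y e d => ?_⟩⟩
  rw [← hc u v (p y) ⟨e, d⟩, ← lg v _ _ (by rwa [(hs u _ e).2]), hl u y e]

/-- A connected triangulated space has a universal cover. -/
theorem exists_cover {M : Type} [TopologicalSpace M] [PathConnectedSpace M] {b : M → V → ℝ}
    (he : IsEmbedding b) (h : Un (range b)) (m : M) :
    ∃ (Y : Type) (_ : TopologicalSpace Y) (_ : MulAction (FundamentalGroup M m) Y) (p : Y → M),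
      IsQuotientCoveringMap p (FundamentalGroup M m) ∧ SimplyConnectedSpace Y := by
  have := lpc he h
  refine exists_universal_cover m fun z => ?_
  obtain ⟨v, hv⟩ := cover h z
  have := st_contr he h v v ⟨z, hv, hv⟩
  exact ⟨St b v v, (st_open he v v).mem_nhds ⟨hv, hv⟩, fun _ _ α β => homotopic_of_mem _ α β⟩

end Pool.Agent.Work.MP_3d425c_gt.Tq
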