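import Pool.Agent.Work.MP_3d425c_gt.Tp.TDefs
import Pool.Agent.Work.MP_3d425c_gt.Tq.Defs

/-! Tautness of a foliation in normal form on a finite triangulation. -/

namespace Pool.Agent.Work.MP_3d425c_gt.Tq
open Set Relation Pool.Agent.Work.MP_3d425c_gt.Tp

/-- Heights on a face lie between the heights of its first and last vertex; every point lies on
a closed chain that never descends and ascends at least once. -/
structure Taut {V M : Type} (K : Set (Fin 4 → V)) (b : M → V → ℝ)
    (ht : (Fin 4 → V) → M → ℝ) : Prop where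
  btw : ∀ x ∈ K, ∀ i j y z w, b y ∈ spx (x '' Icc i j) → b z ∈ spx {x i} → b w ∈ spx {x j} →
    ht x z ≤ ht x y ∧ ht x y ≤ ht x w
  loop : ∀ y, ∃ z w, ReflTransGen (Cmp K b ht (· ≤ ·)) y z ∧
    Cmp K b ht (· < ·) z w ∧ ReflTransGen (Cmp K b ht (· ≤ ·)) w y

end Pool.Agent.Work.MP_3d425c_gt.Tq
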