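import Pool.Agent.Work.MP_3d425c_gt.Tq.Up
import Pool.Agent.Work.MP_3d425c_gt.Tq.TDefs
import Pool.Agent.Work.MP_3d425c_gt.Tp.Taut

/-! Taut foliations on a finite triangulation of the base. -/

namespace Pool.Agent.Work.MP_3d425c_gt.Tq
open Set Relation Pool.Agent.Work.MP_3d425c_gt.Tp

section
variable {G V M : Type} {Y : Type*} [Group G] [TopologicalSpace M] [TopologicalSpace Y]
  [MulAction G Y] {p : Y → M} {b : M → V → ℝ} {K : Set (Fin 4 → V)} (S : Sh G p b)
  (hp : IsQuotientCoveringMap p G) {ht : (Fin 4 → V) → M → ℝ}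
include hp

theorem Sh.lift_cmp (hc : Coc S.c K) {r : ℝ → ℝ → Prop} {y z} (h : Cmp K b ht r (p y) z) :
    ∃ y', p y' = z ∧ Cmp (Up S.c K) S.bb (fun x y => ht (dn x) (p y)) r y y' := by
  obtain ⟨x, hx, a, d, e⟩ := h
  obtain ⟨x', h1, rfl, h2⟩ := S.lift_tet hc hx a
  obtain ⟨y', rfl, -, h3⟩ := S.lift_pt hp h1 d
  exact ⟨y', rfl, x', h1, h2, h3, e⟩

theorem Sh.lift_chain (hc : Coc S.c K) {r : ℝ → ℝ → Prop} {y z}
    (h : ReflTransGen (Cmp K b ht r) (p y) z) :
    ∃ y', p y' = z ∧ ReflTransGen (Cmp (Up S.c K) S.bb (fun x y => ht (dn x) (p y)) r) y y' := by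
  induction h with
  | refl => exact ⟨y, rfl, .refl⟩
  | tail _ e ih =>
    obtain ⟨y', rfl, a⟩ := ih
    obtain ⟨y'', d, f⟩ := S.lift_cmp hp hc e
    exact ⟨y'', d, a.tail f⟩

theorem Sh.taut (hc : Coc S.c K) (hT : Taut K b ht) :
    Tp.Taut G (Up S.c K) S.bb fun x y => ht (dn x) (p y) where
  btw x hx i j y z w a d e := by
    have a' := S.down a
    have d' := S.down d
    have e' := S.down e
    rw [← image_comp] at a'
    rw [image_singleton] at d' e'
    exact hT.btw _ hx.1 i j _ _ _ a' d' e'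
  loop y := by
    obtain ⟨z, w, a, d, e⟩ := hT.loop (p y)
    obtain ⟨z', rfl, a'⟩ := S.lift_chain hp hc a
    obtain ⟨w', rfl, d'⟩ := S.lift_cmp hp hc d
    obtain ⟨y', f, e'⟩ := S.lift_chain hp hc e
    obtain ⟨g, rfl⟩ := hp.apply_eq_iff_mem_orbit.1 f
    exact ⟨g, z', w', a', d', e'⟩

end

/-- Everything lifts to the universal cover. -/
theorem exists_lift {M V : Type} [TopologicalSpace M] (m : M) {K : Set (Fin 4 → V)} (hK : Mfd K)
    {b : M → V → ℝ} {ht : (Fin 4 → V) → M → ℝ} (hn : Nf K b ht) (hT : Taut K b ht) :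
    ∃ (Y W : Type) (_ : TopologicalSpace Y) (_ : SimplyConnectedSpace Y)
      (_ : MulAction (FundamentalGroup M m) Y) (_ : MulAction (FundamentalGroup M m) W)
      (p : Y → M) (L : Set (Fin 4 → W)) (c : Y → W → ℝ) (h : (Fin 4 → W) → Y → ℝ),
      IsQuotientCoveringMap p (FundamentalGroup M m) ∧ Cpx (FundamentalGroup M m) L ∧
      Bary (FundamentalGroup M m) L c ∧ Normal (FundamentalGroup M m) L c h ∧
      Tp.Taut (FundamentalGroup M m) L c h := by
  have := hK.path hn.emb hn.onto m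
  obtain ⟨Y, _, _, p, hp, _⟩ := exists_cover hn.emb (un_range hn.onto) m
  obtain ⟨S⟩ := exists_sh hp hn.emb (un_range hn.onto)
  exact ⟨Y, _, inferInstance, inferInstance, inferInstance, inferInstance, p, _, _, _, hp,
    S.cpx hp hK hn.emb hn.onto, S.bary hp hn.emb hn.onto, S.normal hp hn,
    S.taut hp (S.coc hp.surjective hn.onto) hT⟩

theorem main_taut {M V : Type} [TopologicalSpace M] (m : M)
    (tf : ∀ a : FundamentalGroup M m, a ≠ 1 → ¬ IsOfFinOrder a)
    (cent : ∀ a : FundamentalGroup M m, a ≠ 1 →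
      IsCyclic (Subgroup.centralizer ({a} : Set (FundamentalGroup M m))))
    (big : ∀ E : Subgroup (FundamentalGroup M m), E.FG → IsCyclic E ∨ E.FiniteIndex ∨
      ∃ f : E →* Multiplicative (ℤ × ℤ), Function.Surjective f)
    (K : Set (Fin 4 → V)) (hK : Mfd K) (b : M → V → ℝ) (ht : (Fin 4 → V) → M → ℝ)
    (hn : Nf K b ht) (hT : Taut K b ht) :
    Nontrivial (FundamentalGroup M m) ∧
      ∃ r : FundamentalGroup M m → FundamentalGroup M m → Prop,
        IsStrictTotalOrder _ r ∧ ∀ a b c, r a b ↔ r (c * a) (c * b) := by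
  obtain ⟨Y, W, _, _, _, _, p, L, c, h, hp, h1, h2, h3, h4⟩ := exists_lift m hK hn hT
  exact Tp.main_taut p hp tf cent big L h1 c h2 h h3 h4 m

end Pool.Agent.Work.MP_3d425c_gt.Tq
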