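import Pool.Agent.Work.MP_3d425c_gt.Tq.Ext

/-! The lifted barycentric coordinates and heights. -/

namespace Pool.Agent.Work.MP_3d425c_gt.Tq
open Set Function Topology Filter Relation Pool.Agent.Work.MP_3d425c_gt.Tp

variable {G V M : Type} {Y : Type*} [Group G] [TopologicalSpace M] [TopologicalSpace Y]
  [MulAction G Y] {p : Y → M} {b : M → V → ℝ} {K : Set (Fin 4 → V)}

omit [TopologicalSpace M] in
theorem un_range (ho : range b = ⋃ x ∈ K, spx (range x)) : Un (range b) :=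
  ho ▸ un_of fun β hβ => by
    obtain ⟨x, hx, a⟩ := mem_iUnion₂.1 hβ
    exact ⟨_, a, subset_biUnion_of_mem (u := fun x => spx (range x)) hx⟩

omit [TopologicalSpace M] in
theorem exists_tet (ho : range b = ⋃ x ∈ K, spx (range x)) (z : M) :
    ∃ x ∈ K, b z ∈ spx (range x) := by
  have : b z ∈ ⋃ x ∈ K, spx (range x) := ho ▸ ⟨z, rfl⟩
  simpa only [mem_iUnion, exists_prop] using this

omit [TopologicalSpace M] in
theorem exists_pt (ho : range b = ⋃ x ∈ K, spx (range x)) {x} (hx : x ∈ K) {β}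
    (hβ : β ∈ spx (range x)) : ∃ z, b z = β := by
  have : β ∈ range b := ho ▸ mem_biUnion hx hβ
  exact this

theorem spx_ne {s : Set V} {β : V → ℝ} (h : β ∈ spx s) : ∃ v ∈ s, β v ≠ 0 := by
  by_contra e
  push Not at e
  have : ∀ v, β v = 0 := fun v => by_contra fun d => d (e v (h.2.1 d))
  have h2 := h.2.2
  simp [this] at h2

namespace Sh
variable (S : Sh G p b)

/-- barycentric coordinates upstairs -/
noncomputable def bb (y : Y) : Lf G V → ℝ := ex (fun v => S.l v y) (b (p y))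

theorem bb_eq {y v} (h : b (p y) v ≠ 0) : S.bb y = ex (nb S.c ⟨S.l v y, v⟩) (b (p y)) :=
  ex_congr fun w hw => S.tr v w y h hw

theorem bb_l (y v) : S.bb y ⟨S.l v y, v⟩ = b (p y) v := ex_gr (fun v => S.l v y) _ v

theorem down {y} {s : Set (Lf G V)} (h : S.bb y ∈ spx s) : b (p y) ∈ spx (Lf.x '' s) :=
  spx_mono (fun v hv => by exact ⟨_, hv, rfl⟩) (ex_mem.1 h)

theorem down_tet {y} {x : Fin 4 → Lf G V} (h : S.bb y ∈ spx (range x)) :
    b (p y) ∈ spx (range (dn x)) :=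
  spx_mono (by rintro _ ⟨q, hq, rfl⟩; exact dn_mem hq) (S.down h)

theorem l_mem {y} {s : Set (Lf G V)} (h : S.bb y ∈ spx s) {v} (hv : b (p y) v ≠ 0) :
    (⟨S.l v y, v⟩ : Lf G V) ∈ s :=
  h.2.1 (by rwa [mem_support, S.bb_l])

/-- In a lifted tetrahedron the coordinates are those of the projection. -/
theorem coord {y x} (hx : x ∈ Up S.c K) (h : S.bb y ∈ spx (range x)) {q} (hq : q ∈ range x) :
    S.bb y q = b (p y) q.x := by
  obtain ⟨v, -, hv⟩ := spx_ne (S.down h)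
  rw [S.bb_eq hv, ← ex_gr (nb S.c ⟨S.l v y, v⟩) (b (p y)) q.x, nb_eq hx (S.l_mem h hv) hq]

theorem coc (hs : Surjective p) (ho : range b = ⋃ x ∈ K, spx (range x)) : Coc S.c K := by
  intro x hx u hu v hv w hw
  obtain ⟨z, hz⟩ := exists_pt ho hx (spx_convex _ (spx_convex _ (dl_mem hu) (dl_mem hv)
    (a := 1 / 2) (b := 1 / 2) (by norm_num) (by norm_num) (by norm_num)) (dl_mem hw)
    (a := 1 / 2) (b := 1 / 2) (by norm_num) (by norm_num) (by norm_num))
  obtain ⟨y, rfl⟩ := hs z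
  have pos : ∀ r, (r = u ∨ r = v ∨ r = w) → b (p y) r ≠ 0 := fun r hr => by
    have h1 := dl_nn u r
    have h2 := dl_nn v r
    have h3 := dl_nn w r
    rw [hz]
    simp only [Pi.add_apply, Pi.smul_apply, smul_eq_mul]
    rcases hr with rfl | rfl | rfl <;> rw [dl_self] <;> linarith
  have a := S.tr u v y (pos u (by simp)) (pos v (by simp))
  have d := S.tr v w y (pos v (by simp)) (pos w (by simp))
  have e := S.tr u w y (pos u (by simp)) (pos w (by simp))
  rw [d, a, mul_assoc] at e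
  exact mul_left_cancel e

/-- A tetrahedron through the projection of `y` lifts to a tetrahedron through `y`. -/
theorem lift_tet (hc : Coc S.c K) {y x} (hx : x ∈ K) (h : b (p y) ∈ spx (range x)) :
    ∃ x' ∈ Up S.c K, dn x' = x ∧ S.bb y ∈ spx (range x') := by
  obtain ⟨v, hv, a⟩ := spx_ne h
  refine ⟨_, hc.up hx (q := ⟨S.l v y, v⟩) hv, rfl, ?_⟩
  rw [S.bb_eq a, range_comp, ← ex_image]
  exact ⟨_, h, rfl⟩

variable (hp : IsQuotientCoveringMap p G)
include hp

theorem at_pt (q : Lf G V) {z} (h : b z q.x ≠ 0) :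
    p (q.g • S.s q.x z) = z ∧ S.l q.x (q.g • S.s q.x z) = q.g := by
  refine ⟨by rw [hp.map_smul, S.ps _ _ h], ?_⟩
  rw [S.lg _ _ _ (by rwa [S.ps _ _ h]), S.l1 _ _ h, mul_one]

/-- A point of the projection of a lifted tetrahedron lifts into it. -/
theorem lift_pt {x} (hx : x ∈ Up S.c K) {z} (h : b z ∈ spx (range (dn x))) :
    ∃ y, p y = z ∧ S.bb y = ex (nb S.c (x 0)) (b z) ∧ S.bb y ∈ spx (range x) := by
  obtain ⟨v, ⟨i, rfl⟩, a⟩ := spx_ne h
  obtain ⟨e1, e2⟩ := S.at_pt hp (x i) a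
  have e : S.bb ((x i).g • S.s (x i).x z) = ex (nb S.c (x 0)) (b z) := by
    rw [S.bb_eq (v := (x i).x) (by rwa [e1]), e1, e2]
    refine ex_congr fun w hw => ?_
    obtain ⟨j, rfl⟩ := h.2.1 hw
    exact (hx.2 i j).symm.trans (hx.2 0 j)
  refine ⟨_, e1, e, ?_⟩
  rw [e, ← up_eq hx ⟨0, rfl⟩, range_comp, ← ex_image]
  refine ⟨_, h, ?_⟩
  rw [up_eq hx ⟨0, rfl⟩]

theorem bb_smul (g : G) (y q) : S.bb (g • y) (g • q) = S.bb y q := by
  unfold bb ex
  rw [hp.map_smul, Lf.smul_def]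
  by_cases e : b (p y) q.x = 0
  · simp [e]
  · have := S.lg _ g y e
    by_cases d : q.g = S.l q.x y
    · rw [if_pos d, if_pos (show g * q.g = S.l q.x (g • y) by rw [this, d])]
    · rw [if_neg d, if_neg fun f : g * q.g = S.l q.x (g • y) =>
        d (mul_left_cancel (f.trans this))]

theorem bb_cont (he : IsEmbedding b) (hn : ∀ z v, 0 ≤ b z v) : Continuous S.bb := by
  refine continuous_pi fun q => continuous_iff_continuousAt.2 fun y => ?_
  have c : Continuous fun y => b (p y) q.x :=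
    (continuous_apply _).comp (he.continuous.comp hp.continuous)
  by_cases e : b (p y) q.x = 0
  · have z : S.bb y q = 0 := by unfold bb ex; simp [e]
    show Tendsto (fun a => S.bb a q) (𝓝 y) (𝓝 (S.bb y q))
    rw [z]
    refine squeeze_zero (fun y => ex_nn (hn _) q) (fun y => ?_) (e ▸ c.tendsto y)
    unfold bb ex
    split_ifs
    · exact le_rfl
    · exact hn _ _
  · by_cases d : q.g = S.l q.x y
    · refine c.continuousAt.congr ?_
      filter_upwards [S.lc _ y e] with y' a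
      exact (if_pos (d.trans a.symm)).symm
    · refine (continuousAt_const (y := (0 : ℝ))).congr ?_
      filter_upwards [S.lc _ y e] with y' a
      exact (if_neg fun f => d (f.trans a)).symm

theorem bb_emb (he : IsEmbedding b) (h : Un (range b)) : IsEmbedding S.bb := by
  have := hp.toContinuousConstSMul
  have key : ∀ {y y' v}, b (p y) v ≠ 0 → S.bb y' ⟨S.l v y, v⟩ ≠ 0 →
      b (p y') = S.bb y' ∘ gr (nb S.c ⟨S.l v y, v⟩) ∧ S.l v y • S.s v (p y') = y' := by
    intro y y' v _ d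
    obtain ⟨e1, e2⟩ := ex_ne d
    have e3 : S.l v y = S.l v y' := congrArg Lf.g e1
    refine ⟨?_, e3 ▸ S.ls v y' e2⟩
    rw [S.bb_eq (v := v) e2, e3]
    exact funext fun w => (ex_gr _ _ w).symm
  refine ⟨isInducing_iff_nhds.2 fun y => le_antisymm ?_ ?_, fun y y' e => ?_⟩
  · exact ((S.bb_cont hp he fun z => (h _ ⟨z, rfl⟩).1.1).tendsto y).le_comap
  · obtain ⟨v, hv⟩ := cover h (p y)
    have hv' : S.bb y ⟨S.l v y, v⟩ ≠ 0 := by rwa [S.bb_l]
    have t0 : Tendsto S.bb (comap S.bb (𝓝 (S.bb y))) (𝓝 (S.bb y)) := tendsto_comap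
    have ev : ∀ᶠ y' in comap S.bb (𝓝 (S.bb y)), S.bb y' ⟨S.l v y, v⟩ ≠ 0 :=
      (((continuous_apply _).tendsto _).comp t0).eventually_ne hv'
    have t1 : Tendsto p (comap S.bb (𝓝 (S.bb y))) (𝓝 (p y)) := by
      rw [he.tendsto_nhds_iff, (key hv hv').1]
      refine (((continuous_pi fun w => continuous_apply
        (gr (nb S.c ⟨S.l v y, v⟩) w)).tendsto _).comp t0).congr' ?_
      filter_upwards [ev] with y' a
      exact (key hv a).1.symm
    have t2 := ((S.cs v _ hv).tendsto.comp t1).const_smul (S.l v y)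
    rw [S.ls v y hv] at t2
    refine tendsto_id'.1 (t2.congr' ?_)
    filter_upwards [ev] with y' a
    exact (key hv a).2
  · obtain ⟨v, hv⟩ := cover h (p y)
    have hv' : S.bb y ⟨S.l v y, v⟩ ≠ 0 := by rwa [S.bb_l]
    have k' := key hv (e ▸ hv' : S.bb y' ⟨S.l v y, v⟩ ≠ 0)
    have : p y = p y' := he.injective (by rw [(key hv hv').1, k'.1, e])
    rw [← k'.2, ← this, S.ls v y hv]

theorem bary (he : IsEmbedding b) (ho : range b = ⋃ x ∈ K, spx (range x)) :
    Bary G (Up S.c K) S.bb where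
  emb := S.bb_emb hp he (un_range ho)
  onto := by
    ext β
    simp only [mem_iUnion]
    constructor
    · rintro ⟨y, rfl⟩
      obtain ⟨x, hx, a⟩ := exists_tet ho (p y)
      obtain ⟨x', h1, -, h2⟩ := S.lift_tet (S.coc hp.surjective ho) hx a
      exact ⟨x', h1, h2⟩
    · rintro ⟨x, hx, a⟩
      rw [← up_eq hx ⟨0, rfl⟩, range_comp, ← ex_image] at a
      obtain ⟨γ, a, rfl⟩ := a
      obtain ⟨z, rfl⟩ := exists_pt ho hx.1 a
      obtain ⟨y, -, e, -⟩ := S.lift_pt hp hx a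
      exact ⟨y, e⟩
  equi := S.bb_smul hp

theorem conn [PreconnectedSpace Y] (hK : Mfd K) (he : IsEmbedding b)
    (ho : range b = ⋃ x ∈ K, spx (range x)) :
    ∀ x ∈ Up S.c K, ∀ y ∈ Up S.c K, ReflTransGen (Adj (Up S.c K) fun _ => True) x y := by
  intro x0 h0 x1 h1
  have hc := S.coc hp.surjective ho
  let A : Y → Prop := fun y => ∃ x ∈ Up S.c K, S.bb y ∈ spx (range x) ∧
    ReflTransGen (Adj (Up S.c K) fun _ => True) x0 x
  have step : ∀ y y' v, b (p y) v ≠ 0 → b (p y') v ≠ 0 → S.l v y' = S.l v y → A y → A y' := by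
    rintro y y' v a d e ⟨x, hx, f, g⟩
    obtain ⟨w, hw, k⟩ := exists_tet ho (p y')
    obtain ⟨x', k1, -, k2⟩ := S.lift_tet hc hw k
    exact ⟨x', k1, k2, g.trans (hc.star hK ⟨S.l v y, v⟩ hx k1 (S.l_mem f a) (e ▸ S.l_mem k2 d))⟩
  have lo : IsLocallyConstant A := (IsLocallyConstant.iff_eventually_eq _).2 fun y => by
    obtain ⟨v, hv⟩ := cover (un_range ho) (p y)
    filter_upwards [S.lc v y hv, (((continuous_apply v).comp
      (he.continuous.comp hp.continuous)).tendsto y).eventually_ne hv] with y' a d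
    exact propext ⟨step y' y v d hv a.symm, step y y' v hv d a⟩
  have pt : ∀ x ∈ Up S.c K, ∃ y, S.bb y ∈ spx (range x) := fun x hx => by
    have m : dl (dn x 0) ∈ spx (range (dn x)) := dl_mem ⟨0, rfl⟩
    obtain ⟨z, hz⟩ := exists_pt ho hx.1 m
    obtain ⟨y, -, -, a⟩ := S.lift_pt hp hx (hz ▸ m)
    exact ⟨y, a⟩
  obtain ⟨y0, a0⟩ := pt x0 h0
  obtain ⟨y1, a1⟩ := pt x1 h1
  obtain ⟨x, hx, f, g⟩ : A y1 := lo.apply_eq_of_preconnectedSpace y0 y1 ▸ ⟨x0, h0, a0, .refl⟩
  obtain ⟨v, hv⟩ := cover (un_range ho) (p y1)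
  exact g.trans (hc.star hK _ hx h1 (S.l_mem f hv) (S.l_mem a1 hv))

theorem cpx [PreconnectedSpace Y] (hK : Mfd K) (he : IsEmbedding b)
    (ho : range b = ⋃ x ∈ K, spx (range x)) : Cpx G (Up S.c K) :=
  (S.coc hp.surjective ho).cpx hK (S.conn hp hK he ho)

theorem normal {ht : (Fin 4 → V) → M → ℝ} (hn : Nf K b ht) :
    Normal G (Up S.c K) S.bb fun x y => ht (dn x) (p y) where
  cont x hx := (hn.cont _ hx.1).comp hp.continuous.continuousOn fun _ h => S.down_tet h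
  mono x hx i j ij y z a d e := by
    have s : ({x i, x j} : Set (Lf G V)) ⊆ range x := pair_subset ⟨i, rfl⟩ ⟨j, rfl⟩
    rw [S.coord hx (spx_mono s a) ⟨j, rfl⟩, S.coord hx (spx_mono s d) ⟨j, rfl⟩] at e
    have a' := S.down a
    have d' := S.down d
    rw [image_pair] at a' d'
    exact hn.mono _ hx.1 i j ij _ _ a' d' e
  same x hx x' hx' y z a d := by
    have s : Lf.x '' (range x ∩ range x') ⊆ range (dn x) ∩ range (dn x') := by
      rintro _ ⟨q, hq, rfl⟩
      exact ⟨dn_mem hq.1, dn_mem hq.2⟩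
    exact hn.same _ hx.1 _ hx'.1 _ _ (spx_mono s (S.down a)) (spx_mono s (S.down d))
  inv g x _ y z _ _ e := by
    rw [hp.map_smul, hp.map_smul]
    exact e

end Sh

theorem Mfd.path (hK : Mfd K) (he : IsEmbedding b) (ho : range b = ⋃ x ∈ K, spx (range x))
    (m : M) : PathConnectedSpace M := by
  obtain ⟨x0, h0, -⟩ := exists_tet ho m
  have j : ∀ x ∈ K, ∀ β ∈ spx (range x), ∀ γ ∈ spx (range x), JoinedIn (range b) β γ :=
    fun x hx β hβ γ hγ => (((spx_convex _).isPathConnected ⟨β, hβ⟩).joinedIn β hβ γ hγ).mono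
      (ho ▸ subset_biUnion_of_mem (u := fun x => spx (range x)) hx)
  have k : ∀ x, ReflTransGen (Adj K fun f => ∅ ⊆ range f) x0 x → x ∈ K ∧
      JoinedIn (range b) (dl (x0 0)) (dl (x 0)) := by
    intro x h
    induction h with
    | refl => exact ⟨h0, j _ h0 _ (dl_mem ⟨0, rfl⟩) _ (dl_mem ⟨0, rfl⟩)⟩
    | tail _ e ih =>
      obtain ⟨hy, k, l, e, -⟩ := e
      exact ⟨hy, ih.2.trans ((j _ ih.1 _ (dl_mem ⟨0, rfl⟩) _ (dl_mem ⟨k.succAbove 0, rfl⟩)).trans
        (j _ hy _ (dl_mem ⟨l.succAbove 0, (congrFun e 0).symm⟩) _ (dl_mem ⟨0, rfl⟩)))⟩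
  have c : IsPathConnected (range b) := by
    refine ⟨dl (x0 0), (k x0 .refl).2.source_mem, ?_⟩
    rintro _ ⟨z, rfl⟩
    obtain ⟨x, hx, a⟩ := exists_tet ho z
    exact (k x (hK.link ∅ _ h0 _ hx (empty_subset _) (empty_subset _))).2.trans
      (j x hx _ (dl_mem ⟨0, rfl⟩) _ a)
  have := isPathConnected_iff_pathConnectedSpace.1 c
  exact he.toHomeomorph.symm.surjective.pathConnectedSpace he.toHomeomorph.symm.continuous

end Pool.Agent.Work.MP_3d425c_gt.Tq
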